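import Pool.Agent.R537.MR.Pad

/-!
# The minimum rank problem with a constant rank bound is `∃ℝ`-hard for every bound `r ≥ 2`

An instance is a variable matrix `M` (`VarMatrix`, in `Pool.Agent.H606R2.MinRank.Defs`): a square
matrix, given by the list of its rows, each entry of which is a rational constant or a variable; a
variable may occur in several entries.  `M.at a` is the real matrix obtained by the substitution
of `a i` for the variable `x_i`.  The class `∃ℝ` and hardness for it under polynomial-time many-one
reductions are defined in `Pool.Agent.ER.Defs`.

Idea of the proof.  A system of equations `x = 1`, `x + y = z`, `x y = z` is written with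
`2 × 2` blocks: for `2 × 2` matrices `X`, `Y`, `Z` of a special form (with entries `0`, `± 1`,
`± x`) the equation is equivalent to `Z = X Y` and also to `det (Z - X Y) = 0`.  The block matrix
with the first block row `(1, Y_1, Y_2, …)`, the first block column `(1, X_1, X_2, …)`, the
diagonal blocks `Z_1, Z_2, …` and pairwise distinct new variables in all the other entries has
minimum rank `2` if the system is solvable and at least `4` if it is not.  A direct summand, an
identity matrix of size `r - 2`, raises the two values to `r` and `r + 2`.
-/

namespace Pool.Agent.Results.MP_51fc0b_lc.ConstantRankHard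

open Pool.Agent.NPC Pool.Agent.NPC.ER Pool.Agent.H606R2.MinRank

/-- For every fixed `r ≥ 2` (in particular for `r = 4`) the problem `MinRank_r` is `∃ℝ`-hard: given
a variable matrix `M`, is there a real point `a` with `rank M(a) ≤ r`? -/
theorem result : ∀ r : ℕ, 2 ≤ r →
    ERHard (lang fun M : VarMatrix => ∃ a : ℕ → ℝ, (M.at a).rank ≤ r) := by
  intro r hr
  obtain ⟨k, rfl⟩ : ∃ k, r = 2 + k := ⟨r - 2, by omega⟩
  exact ERHard.of_sys (Pool.Agent.NPC.R537MR.poly_matS k)
    (fun S => Pool.Agent.R537.MR.sat_iff k S)

end Pool.Agent.Results.MP_51fc0b_lc.ConstantRankHard
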